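import Pool.Agent.DC31.Dense

/-!
# Asymptotics of `ex'(n,k)` in three dense ranges
-/

namespace Pool.Agent.Results.MP_8264c5_co.DenseWindows

open Pool.Agent.DC31

/-- `ex'(n,k)` is `(4+o(1))k` for `n^{3/2} ≪ k ≤ n²/16`, `(6+o(1))k` for `n^{4/3} ≪ k ≪ n^{3/2}` and
`(8+o(1))k` for `n^{5/4} ≪ k ≪ n^{4/3}`; with explicit bounds. -/
theorem result :
    (∀ ε : ℝ, 0 < ε → ∃ C : ℝ, 0 < C ∧ ∀ n k : ℕ, 1 ≤ n → 1 ≤ k →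
      (C * (n : ℝ) ^ (3 / 2 : ℝ) ≤ k → 16 * k ≤ n ^ 2 → |(exPrime n k : ℝ) - 4 * k| ≤ ε * k) ∧
      (C * (n : ℝ) ^ (4 / 3 : ℝ) ≤ k → C * k ≤ (n : ℝ) ^ (3 / 2 : ℝ) →
        |(exPrime n k : ℝ) - 6 * k| ≤ ε * k) ∧
      (C * (n : ℝ) ^ (5 / 4 : ℝ) ≤ k → C * k ≤ (n : ℝ) ^ (4 / 3 : ℝ) →
        |(exPrime n k : ℝ) - 8 * k| ≤ ε * k)) ∧
    (∀ n k : ℕ, 1 ≤ k →
      (16 * k ≤ n ^ 2 → 4 * k - 1 ≤ exPrime n k) ∧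
      (136 * (k : ℝ) ≤ (n : ℝ) ^ (3 / 2 : ℝ) → 6 * k - 1 ≤ exPrime n k) ∧
      (323 * (k : ℝ) ≤ (n : ℝ) ^ (4 / 3 : ℝ) → 8 * k - 1 ≤ exPrime n k) ∧
      (∀ r : ℕ, 1 ≤ r →
        (exPrime n k : ℝ) ≤ 2 * r * (k - 1) + (n : ℝ) ^ (1 + 1 / (r : ℝ)) + n)) :=
  ⟨dense_windows, fun n k hk => ⟨lower4_real n k hk, lower6_real n k hk, lower8_real n k hk,
    fun r hr => upper_real n k r hk hr⟩⟩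

end Pool.Agent.Results.MP_8264c5_co.DenseWindows
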