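import Pool.Agent.DC31.Order

/-!
# The order of magnitude of `ex'(n,k)` for all `n` and `k`
-/

namespace Pool.Agent.Results.MP_8264c5_co.OrderOfMagnitude

open Pool.Agent.DC31

/-- `ex'(n,k)` has the order of magnitude of `min_{r ≥ 1} (r k + n^{1+1/r})`, for all `n` and all
`k` with `1 ≤ k ≤ n²/16`. -/
theorem result (n k : ℕ) (hk : 1 ≤ k) (h : 16 * k ≤ n ^ 2) :
    (∀ r : ℕ, 1 ≤ r →
      (exPrime n k : ℝ) ≤ 2 * (r * k + (n : ℝ) ^ (1 + 1 / (r : ℝ)))) ∧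
    (∃ r : ℕ, 1 ≤ r ∧ r * k + (n : ℝ) ^ (1 + 1 / (r : ℝ)) ≤ 128 * exPrime n k) :=
  ⟨fun r hr => order_upper n k r hk hr, order_lower n k hk h⟩

end Pool.Agent.Results.MP_8264c5_co.OrderOfMagnitude
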