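import Pool.Agent.DC31.Asym

/-!
# A lower bound for `ex'(n,k)` in the sparse range
-/

namespace Pool.Agent.Results.MP_8264c5_co.SparseLower

open Pool.Agent.DC31

/-- For all `k ≥ 4` and all `n ≥ 4 k log₂ k`,
`ex'(n,k) ≥ n + k (log₂ k - log₂ log₂ log₂ k - 8)`; in particular, for every `ε > 0` and all
`k ≥ K(ε)`, `n ≥ 4 k log₂ k`, `ex'(n,k) ≥ n + (1 - ε) k log₂ k`. -/
theorem result :
    (∀ n k : ℕ, 4 ≤ k → 4 * k * Real.logb 2 k ≤ n →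
      n + k * (Real.logb 2 k - Real.logb 2 (Real.logb 2 (Real.logb 2 k)) - 8) ≤ exPrime n k) ∧
    (∀ ε : ℝ, 0 < ε → ∃ K : ℕ, ∀ k : ℕ, K ≤ k → ∀ n : ℕ, 4 * k * Real.logb 2 k ≤ n →
      n + (1 - ε) * k * Real.logb 2 k ≤ exPrime n k) :=
  ⟨sparse_lower, sparse_lower_asym⟩

end Pool.Agent.Results.MP_8264c5_co.SparseLower
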