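import Pool.Agent.CP52.Final

/-!
# An upper bound for `ex'(n,k)` with leading constant less than two
-/

namespace Pool.Agent.Results.MP_8264c5_co.SparseUpper

open Pool.Agent.DC31

/-- For all large `k` and all `n`, `ex'(n,k) ≤ n + (2 - 1/250) k log₂ k`. -/
theorem result : ∃ K : ℕ, ∀ k ≥ K, ∀ n : ℕ,
    (exPrime n k : ℝ) ≤ n + (2 - 1 / 250) * k * Real.logb 2 k :=
  Pool.Agent.CP52.upper

end Pool.Agent.Results.MP_8264c5_co.SparseUpper
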